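import Pool.Agent.Lib.MP_666db5_gt.Defs
import Pool.Agent.Lib.MP_666db5_gt.Example

set_option autoImplicit false

open scoped Manifold ContDiff
open Pool.Agent.Lib.MP_666db5_gt

namespace Pool.Agent.Results.MP_666db5_gt.NoCompactLeaf

/-- There is a closed connected smooth manifold of dimension `2n + q` (`n, q ≥ 1`) with a
`q`-contact structure such that no orbit of the contact action (no leaf of the contact foliation)
is compact.  The witness is a 2-contact structure on the four-torus (`n = 1`, `q = 2`). -/
theorem result :
    ∃ (n q : ℕ), 1 ≤ n ∧ 1 ≤ q ∧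
      ∃ (E : Type) (_ : NormedAddCommGroup E) (_ : NormedSpace ℝ E),
        FiniteDimensional ℝ E ∧ Module.finrank ℝ E = 2 * n + q ∧
        ∃ (M : Type) (_ : TopologicalSpace M) (_ : ChartedSpace E M)
          (_ : IsManifold 𝓘(ℝ, E) ∞ M),
          T2Space M ∧ CompactSpace M ∧ ConnectedSpace M ∧
          ∃ (c : QContact E q M) (R : Fin q → (x : M) → TangentSpace 𝓘(ℝ, E) x)
            (F : (Fin q → ℝ) → M → M),
            c.IsReebFrame R ∧ IsActionOfFlows R F ∧ ∀ x : M, ¬ IsCompact (leaf F x) :=
  ⟨1, 2, le_refl 1, one_le_two, E4, inferInstance, inferInstance, inferInstance, by simp,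
    T4, inferInstance, inferInstance, inferInstance, inferInstance, inferInstance, inferInstance,
    structure4, reebField, act, isReebFrame, isActionOfFlows, not_isCompact_leaf⟩

end Pool.Agent.Results.MP_666db5_gt.NoCompactLeaf
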